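import Mathlib
import Pool.Agent.Helper8_Minor.Defs

set_option autoImplicit false

/-! Laurent polynomials over `ℤ` in `d` variables: the `l1` norm, units, complementary minors. -/

namespace Pool.Agent.Helper38_Fox

open AddMonoidAlgebra Finset
open Pool.Agent.Minor

variable {d : ℕ}

theorem l1_def' (f : Lau d) (s : Finset (Fin d → ℤ)) (hs : f.coeff.support ⊆ s) :
    nm f = ∑ v ∈ s, (f.coeff v).natAbs := by
  unfold nm
  refine Finset.sum_subset hs fun v _ hv => ?_
  rw [Finsupp.notMem_support_iff.1 hv]
  rfl

@[simp] theorem l1_zero : nm (0 : Lau d) = 0 := by simp [nm]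

@[simp] theorem l1_single (v : Fin d → ℤ) (n : ℤ) : nm (single v n : Lau d) = n.natAbs := by
  classical
  rw [l1_def' _ {v} (by rw [coeff_single]; exact Finsupp.support_single_subset),
    Finset.sum_singleton]
  simp

theorem l1_one : nm (1 : Lau d) = 1 := by
  rw [one_def, l1_single]; rfl

theorem l1_add_le (f g : Lau d) : nm (f + g) ≤ nm f + nm g := by
  classical
  rw [l1_def' f (f.coeff.support ∪ g.coeff.support) subset_union_left,
    l1_def' g (f.coeff.support ∪ g.coeff.support) subset_union_right,
    l1_def' (f + g) (f.coeff.support ∪ g.coeff.support) (by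
      simpa using Finsupp.support_add), ← Finset.sum_add_distrib]
  refine Finset.sum_le_sum fun v _ => ?_
  simpa using Int.natAbs_add_le _ _

theorem l1_neg (f : Lau d) : nm (-f) = nm f := by
  classical
  rw [l1_def' f f.coeff.support subset_rfl, l1_def' (-f) f.coeff.support (by simp)]
  refine Finset.sum_congr rfl fun v _ => ?_
  simp

theorem l1_sub_le (f g : Lau d) : nm (f - g) ≤ nm f + nm g := by
  rw [sub_eq_add_neg, ← l1_neg g]
  exact l1_add_le _ _

theorem l1_sum_le {ι : Type*} (s : Finset ι) (f : ι → Lau d) :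
    nm (∑ i ∈ s, f i) ≤ ∑ i ∈ s, nm (f i) := by
  classical
  induction s using Finset.induction_on with
  | empty => simp
  | insert a s ha ih =>
    rw [Finset.sum_insert ha, Finset.sum_insert ha]
    exact (l1_add_le _ _).trans (Nat.add_le_add_left ih _)

theorem l1_single_mul_le (v : Fin d → ℤ) (n : ℤ) (g : Lau d) :
    nm (single v n * g) ≤ n.natAbs * nm g := by
  induction g using AddMonoidAlgebra.induction with
  | zero => simp
  | single_add m r x hm hr ih =>
    rw [mul_add, single_mul_single]
    have hx : nm (single m r + x) = r.natAbs + nm x := by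
      classical
      rw [l1_def' (single m r + x) (insert m x.coeff.support) ?_, Finset.sum_insert hm]
      · simp only [coeff_add, coeff_single, Finsupp.coe_add, Pi.add_apply, Finsupp.single_eq_same]
        rw [Finsupp.notMem_support_iff.1 hm, add_zero]
        congr 1
        rw [l1_def' x x.coeff.support subset_rfl]
        refine Finset.sum_congr rfl fun v hv => ?_
        rw [Finsupp.single_eq_of_ne, zero_add]
        rintro rfl
        exact hm hv
      · intro w hw
        rw [mem_insert]
        by_contra hcon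
        push Not at hcon
        simp only [coeff_add, coeff_single, Finsupp.mem_support_iff, Finsupp.coe_add,
          Pi.add_apply] at hw
        rw [Finsupp.notMem_support_iff.1 hcon.2, Finsupp.single_eq_of_ne hcon.1] at hw
        simp at hw
    refine (l1_add_le _ _).trans ?_
    rw [hx, l1_single, mul_add, Int.natAbs_mul]
    exact Nat.add_le_add_left ih _

theorem l1_mul_le (f g : Lau d) : nm (f * g) ≤ nm f * nm g := by
  classical
  have hf : f = ∑ v ∈ f.coeff.support, single v (f.coeff v) := by
    conv_lhs => rw [← sum_coeff_single f]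
    rfl
  rw [hf, Finset.sum_mul, ← hf]
  refine (l1_sum_le _ _).trans ?_
  rw [l1_def' f f.coeff.support subset_rfl, Finset.sum_mul]
  exact Finset.sum_le_sum fun v _ => l1_single_mul_le _ _ _

/-- The ring homomorphism induced by an additive map of the exponents. -/
noncomputable def mp (E : (Fin d → ℤ) →+ (Fin d → ℤ)) : Lau d →+* Lau d :=
  mapDomainRingHom ℤ E

@[simp] theorem mp_single (E : (Fin d → ℤ) →+ (Fin d → ℤ)) (v : Fin d → ℤ) (n : ℤ) :
    mp E (single v n) = single (E v) n := by
  simp [mp]

theorem l1_mp_le (E : (Fin d → ℤ) →+ (Fin d → ℤ)) (f : Lau d) : nm (mp E f) ≤ nm f := by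
  classical
  have hf : f = ∑ v ∈ f.coeff.support, single v (f.coeff v) := by
    conv_lhs => rw [← sum_coeff_single f]
    rfl
  conv_lhs => rw [hf, map_sum]
  refine (l1_sum_le _ _).trans ?_
  rw [l1_def' f f.coeff.support subset_rfl]
  refine Finset.sum_le_sum fun v _ => ?_
  rw [mp_single, l1_single]

/-- Units of the Laurent polynomial ring have `l1` norm one. -/
theorem l1_of_mul_eq_one {f g : Lau d} (h : f * g = 1) : nm f = 1 := by
  classical
  have hf0 : f.coeff.support.Nonempty := by
    rw [Finset.nonempty_iff_ne_empty]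
    intro h0
    have : f = 0 := by
      apply AddMonoidAlgebra.coeff_injective
      simpa using h0
    rw [this, zero_mul] at h
    exact zero_ne_one h
  have hg0 : g.coeff.support.Nonempty := by
    rw [Finset.nonempty_iff_ne_empty]
    intro h0
    have : g = 0 := by
      apply AddMonoidAlgebra.coeff_injective
      simpa using h0
    rw [this, mul_zero] at h
    exact zero_ne_one h
  have key : ∀ p ∈ f.coeff.support ×ˢ g.coeff.support,
      UniqueAdd f.coeff.support g.coeff.support p.1 p.2 → p.1 + p.2 = 0 ∧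
        f.coeff p.1 * g.coeff p.2 = 1 := by
    intro p hp hu
    rw [Finset.mem_product, Finsupp.mem_support_iff, Finsupp.mem_support_iff] at hp
    have h1 : (f * g).coeff (p.1 + p.2) = f.coeff p.1 * g.coeff p.2 :=
      AddMonoidAlgebra.coeff_mul_add_of_uniqueAdd hu
    rw [h] at h1
    by_cases h0 : p.1 + p.2 = 0
    · refine ⟨h0, ?_⟩
      rw [← h1, h0]
      simp
    · exfalso
      rw [one_def, coeff_single, Finsupp.single_eq_of_ne h0] at h1
      exact mul_ne_zero hp.1 hp.2 h1.symm
  have hcard : f.coeff.support.card * g.coeff.support.card ≤ 1 := by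
    by_contra hcon
    obtain ⟨p1, hp1, p2, hp2, hne, hu1, hu2⟩ :=
      TwoUniqueSums.uniqueAdd_of_one_lt_card (lt_of_not_ge hcon)
    have e1 := (key p1 hp1 hu1).1
    have e2 := (key p2 hp2 hu2).1
    rw [Finset.mem_product] at hp1 hp2
    have := hu1 hp2.1 hp2.2 (by rw [e1, e2])
    exact hne (Prod.ext this.1.symm this.2.symm)
  have hfc : f.coeff.support.card = 1 := by
    have h1 := Finset.card_pos.2 hf0
    have h2 := Finset.card_pos.2 hg0
    nlinarith
  have hgc : g.coeff.support.card = 1 := by
    have h1 := Finset.card_pos.2 hf0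
    have h2 := Finset.card_pos.2 hg0
    nlinarith
  obtain ⟨v, hv⟩ := Finset.card_eq_one.1 hfc
  obtain ⟨w, hw⟩ := Finset.card_eq_one.1 hgc
  have hvw := (key (v, w) (by rw [hv, hw]; simp) (by
    intro a b ha hb _
    rw [hv, Finset.mem_singleton] at ha
    rw [hw, Finset.mem_singleton] at hb
    exact ⟨ha, hb⟩)).2
  rw [l1_def' f {v} (by rw [hv]), Finset.sum_singleton]
  exact Int.natAbs_of_isUnit (IsUnit.of_mul_eq_one _ hvw)

/-- The `l1` norm of a determinant is at most the product over the columns of the sums of the `l1`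
norms of the entries. -/
theorem l1_det_le {ι : Type*} [Fintype ι] [DecidableEq ι] (C : Matrix ι ι (Lau d)) :
    nm C.det ≤ ∏ j, ∑ i, nm (C i j) := by
  classical
  rw [Matrix.det_apply]
  refine (l1_sum_le _ _).trans ?_
  have h1 : ∀ s : Equiv.Perm ι, nm (Equiv.Perm.sign s • ∏ i, C (s i) i) ≤
      ∏ i, nm (C (s i) i) := by
    intro s
    have h2 : nm (∏ i, C (s i) i) ≤ ∏ i, nm (C (s i) i) := by
      refine Finset.le_prod_of_submultiplicative_of_nonneg (fun f : Lau d => nm f)
        (fun _ => Nat.zero_le _) l1_one.le l1_mul_le _ _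
    rcases Int.units_eq_one_or (Equiv.Perm.sign s) with h | h
    · rw [h, one_smul]; exact h2
    · rw [h, Units.neg_smul, one_smul, l1_neg]; exact h2
  refine (Finset.sum_le_sum fun s _ => h1 s).trans ?_
  rw [Finset.prod_univ_sum]
  have hinj : Function.Injective (fun s : Equiv.Perm ι => (fun i => s i : ι → ι)) :=
    fun s t hst => Equiv.ext fun i => congrFun hst i
  have h3 : ∑ s : Equiv.Perm ι, ∏ i, nm (C (s i) i) =
      ∑ f ∈ (Finset.univ.image fun s : Equiv.Perm ι => (fun i => s i : ι → ι)),
        ∏ i, nm (C (f i) i) := by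
    rw [Finset.sum_image (fun s _ t _ hst => hinj hst)]
  rw [h3]
  exact Finset.sum_le_sum_of_subset (fun f _ => by simp)

/-- The complementary minor of the inverse, block form. -/
theorem det_block_inv {R α β : Type*} [CommRing R] [Fintype α] [Fintype β] [DecidableEq α]
    [DecidableEq β] (A B : Matrix (α ⊕ β) (α ⊕ β) R) (h : A * B = 1) :
    A.toBlocks₁₁.det * B.det = B.toBlocks₂₂.det := by
  have hA := Matrix.fromBlocks_toBlocks A
  have hB := Matrix.fromBlocks_toBlocks B
  have hAB : Matrix.fromBlocks A.toBlocks₁₁ A.toBlocks₁₂ A.toBlocks₂₁ A.toBlocks₂₂ *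
      Matrix.fromBlocks B.toBlocks₁₁ B.toBlocks₁₂ B.toBlocks₂₁ B.toBlocks₂₂ = 1 := by
    rw [hA, hB, h]
  rw [Matrix.fromBlocks_multiply, ← Matrix.fromBlocks_one, Matrix.fromBlocks_inj] at hAB
  have hE : Matrix.fromBlocks A.toBlocks₁₁ A.toBlocks₁₂ 0 (1 : Matrix β β R) * B =
      Matrix.fromBlocks 1 0 B.toBlocks₂₁ B.toBlocks₂₂ := by
    conv_lhs => rw [← hB]
    rw [Matrix.fromBlocks_multiply, hAB.1, hAB.2.1]
    simp
  have := congrArg Matrix.det hE
  rw [Matrix.det_mul, Matrix.det_fromBlocks_zero₂₁, Matrix.det_fromBlocks_zero₁₂] at this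
  simpa using this

end Pool.Agent.Helper38_Fox
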