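import Mathlib
import Pool.Agent.Helper38_Fox.L1
import Pool.Agent.Helper8_Minor.Stmt

set_option autoImplicit false

/-! Abelianized Fox calculus of the free group and the bound for the minors of an automorphism. -/

namespace Pool.Agent.Helper38_Fox

open AddMonoidAlgebra Finset
open Pool.Agent.Minor

variable {d : ℕ}

/-- The exponent vector of a word. -/
def exw : List (Fin d × Bool) → (Fin d → ℤ)
  | [] => 0
  | (a, true) :: w => Pi.single a 1 + exw w
  | (a, false) :: w => Pi.single a (-1) + exw w

theorem mon_add (v w : Fin d → ℤ) : mon (v + w) = mon v * mon w := by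
  simp [mon, single_mul_single]

theorem mon_zero : mon (0 : Fin d → ℤ) = 1 := rfl

theorem var_mul_varInv (a : Fin d) : var a * varInv a = 1 := by
  rw [var, varInv, ← mon_add, ← Pi.single_add, add_neg_cancel, Pi.single_zero, mon_zero]

theorem exw_append (u v : List (Fin d × Bool)) : exw (u ++ v) = exw u + exw v := by
  induction u with
  | nil => simp [exw]
  | cons x u ih =>
    obtain ⟨a, b⟩ := x
    cases b <;> simp [exw, ih, add_assoc]

theorem foxL_append (u v : List (Fin d × Bool)) (i : Fin d) :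
    foxL (u ++ v) i = foxL u i + mon (exw u) * foxL v i := by
  induction u with
  | nil => simp [exw, foxL, mon_zero]
  | cons x u ih =>
    obtain ⟨a, b⟩ := x
    cases b
    · simp only [List.cons_append, foxL, ih, exw, mon_add, varInv]; ring
    · simp only [List.cons_append, foxL, ih, exw, mon_add, var]; ring

theorem exw_cancel (a : Fin d) (b : Bool) (w : List (Fin d × Bool)) :
    exw ((a, b) :: (a, !b) :: w) = exw w := by
  cases b
  · simp only [exw, Bool.not_false, ← add_assoc, ← Pi.single_add]; simp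
  · simp only [exw, Bool.not_true, ← add_assoc, ← Pi.single_add]; simp

theorem foxL_cancel (a : Fin d) (b : Bool) (w : List (Fin d × Bool)) (i : Fin d) :
    foxL ((a, b) :: (a, !b) :: w) i = foxL w i := by
  have h := var_mul_varInv a
  cases b
  · simp only [foxL, Bool.not_false]
    by_cases hai : a = i
    · simp only [hai, if_true] at h ⊢
      linear_combination (foxL w i) * h
    · simp only [hai, if_false]
      linear_combination (foxL w i) * h
  · simp only [foxL, Bool.not_true]
    by_cases hai : a = i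
    · simp only [hai, if_true] at h ⊢
      linear_combination (foxL w i - 1) * h
    · simp only [hai, if_false]
      linear_combination (foxL w i) * h

theorem step_eq {u v : List (Fin d × Bool)} (h : FreeGroup.Red.Step u v) :
    exw u = exw v ∧ ∀ i, foxL u i = foxL v i := by
  cases h with
  | @not L₁ L₂ x b =>
    refine ⟨?_, fun i => ?_⟩
    · rw [exw_append, exw_cancel, ← exw_append]
    · rw [foxL_append, foxL_cancel, ← foxL_append]

theorem red_eq {u v : List (Fin d × Bool)} (h : FreeGroup.Red u v) :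
    exw u = exw v ∧ ∀ i, foxL u i = foxL v i := by
  induction h with
  | refl => exact ⟨rfl, fun _ => rfl⟩
  | tail _ h2 ih => exact ⟨ih.1.trans (step_eq h2).1, fun i => (ih.2 i).trans ((step_eq h2).2 i)⟩

/-- The exponent vector of an element of the free group. -/
def ex (g : FreeGroup (Fin d)) : Fin d → ℤ := exw g.toWord

/-- The abelianized Fox derivative on the free group. -/
noncomputable def D (g : FreeGroup (Fin d)) (i : Fin d) : Lau d := foxL g.toWord i

theorem ex_mk (u : List (Fin d × Bool)) : ex (FreeGroup.mk u) = exw u := by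
  rw [ex, FreeGroup.toWord_mk]
  exact (red_eq FreeGroup.reduce.red).1.symm

theorem D_mk (u : List (Fin d × Bool)) (i : Fin d) : D (FreeGroup.mk u) i = foxL u i := by
  rw [D, FreeGroup.toWord_mk]
  exact ((red_eq FreeGroup.reduce.red).2 i).symm

theorem ex_mul (g h : FreeGroup (Fin d)) : ex (g * h) = ex g + ex h := by
  conv_lhs => rw [← FreeGroup.mk_toWord (x := g), ← FreeGroup.mk_toWord (x := h)]
  rw [FreeGroup.mul_mk, ex_mk, exw_append]
  rfl

theorem D_mul (g h : FreeGroup (Fin d)) (i : Fin d) :
    D (g * h) i = D g i + mon (ex g) * D h i := by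
  conv_lhs => rw [← FreeGroup.mk_toWord (x := g), ← FreeGroup.mk_toWord (x := h)]
  rw [FreeGroup.mul_mk, D_mk, foxL_append]
  rfl

theorem ex_one : ex (1 : FreeGroup (Fin d)) = 0 := by
  simp [ex, exw]

theorem D_one (i : Fin d) : D (1 : FreeGroup (Fin d)) i = 0 := by
  simp [D, foxL]

theorem ex_of (a : Fin d) : ex (FreeGroup.of a) = Pi.single a 1 := by
  simp [ex, exw]

theorem D_of (a i : Fin d) : D (FreeGroup.of a) i = if a = i then 1 else 0 := by
  simp [D, foxL]

theorem ex_inv (g : FreeGroup (Fin d)) : ex g⁻¹ = - ex g := by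
  have := ex_mul g g⁻¹
  rw [mul_inv_cancel, ex_one] at this
  exact (neg_eq_of_add_eq_zero_right this.symm).symm

theorem D_inv (g : FreeGroup (Fin d)) (i : Fin d) : D g⁻¹ i = - mon (- ex g) * D g i := by
  have h := D_mul g⁻¹ g i
  rw [inv_mul_cancel, D_one, ex_inv] at h
  linear_combination -h

/-- The induced map of the exponents. -/
def Ef (f : FreeGroup (Fin d) →* FreeGroup (Fin d)) : (Fin d → ℤ) →+ (Fin d → ℤ) where
  toFun v := ∑ k, v k • ex (f (FreeGroup.of k))
  map_zero' := by simp
  map_add' v w := by simp [add_smul, Finset.sum_add_distrib]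

theorem Ef_apply (f : FreeGroup (Fin d) →* FreeGroup (Fin d)) (v : Fin d → ℤ) :
    Ef f v = ∑ k, v k • ex (f (FreeGroup.of k)) := rfl

theorem ex_map (f : FreeGroup (Fin d) →* FreeGroup (Fin d)) (g : FreeGroup (Fin d)) :
    ex (f g) = Ef f (ex g) := by
  induction g using FreeGroup.induction_on with
  | C1 => rw [map_one, ex_one, map_zero]
  | of a =>
    rw [ex_of, Ef_apply, Finset.sum_eq_single a]
    · simp
    · intro b _ hb; simp [hb]
    · simp
  | inv_of a ih => rw [map_inv, ex_inv, ex_inv, ih, map_neg]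
  | mul x y hx hy => rw [map_mul, ex_mul, ex_mul, hx, hy, map_add]

theorem mp_mon (E : (Fin d → ℤ) →+ (Fin d → ℤ)) (v : Fin d → ℤ) : mp E (mon v) = mon (E v) := by
  simp [mon]

/-- The chain rule. -/
theorem D_map (f : FreeGroup (Fin d) →* FreeGroup (Fin d)) (g : FreeGroup (Fin d)) (i : Fin d) :
    D (f g) i = ∑ k, mp (Ef f) (D g k) * D (f (FreeGroup.of k)) i := by
  induction g using FreeGroup.induction_on with
  | C1 => simp [D_one]
  | of a =>
    rw [Finset.sum_eq_single a]
    · simp [D_of]
    · intro b _ hb; simp [D_of, hb.symm]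
    · simp
  | inv_of a ih =>
    rw [map_inv, D_inv, ih, ex_map, Finset.mul_sum]
    refine Finset.sum_congr rfl fun k _ => ?_
    rw [D_inv, map_mul, map_neg (mp (Ef f)), mp_mon, map_neg (Ef f)]
    ring
  | mul x y hx hy =>
    rw [map_mul, D_mul, hx, hy, ex_map, Finset.mul_sum, ← Finset.sum_add_distrib]
    refine Finset.sum_congr rfl fun k _ => ?_
    rw [D_mul, map_add, map_mul, mp_mon]
    ring

/-- The abelianized Fox matrix of an endomorphism. -/
noncomputable def FMat (f : FreeGroup (Fin d) →* FreeGroup (Fin d)) :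
    Matrix (Fin d) (Fin d) (Lau d) := fun a i => D (f (FreeGroup.of a)) i

theorem FMat_comp (f g : FreeGroup (Fin d) →* FreeGroup (Fin d)) :
    FMat (f.comp g) = (FMat g).map (mp (Ef f)) * FMat f := by
  refine Matrix.ext fun a i => ?_
  rw [Matrix.mul_apply]
  exact D_map f (g (FreeGroup.of a)) i

theorem FMat_id : FMat (MonoidHom.id (FreeGroup (Fin d))) = 1 := by
  refine Matrix.ext fun a i => ?_
  rw [Matrix.one_apply]
  exact D_of a i

theorem nm_mon_mul_le (v : Fin d → ℤ) (p : Lau d) : nm (mon v * p) ≤ nm p := by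
  have := l1_single_mul_le v 1 p
  simpa [mon] using this

theorem nm_mon (v : Fin d → ℤ) : nm (mon v) = 1 := by
  simp [mon]

/-- The flow norm is at most the length. -/
theorem sum_nm_foxL_le (w : List (Fin d × Bool)) : ∑ i, nm (foxL w i) ≤ w.length := by
  classical
  induction w with
  | nil => simp [foxL]
  | cons x w ih =>
    obtain ⟨a, b⟩ := x
    have key : ∀ i, nm (foxL ((a, b) :: w) i) ≤ (if a = i then 1 else 0) + nm (foxL w i) := by
      intro i
      cases b
      · simp only [foxL]
        refine (l1_add_le _ _).trans (Nat.add_le_add ?_ ?_)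
        · rw [l1_neg]
          by_cases h : a = i
          · rw [if_pos h, if_pos h, varInv, nm_mon]
          · rw [if_neg h, if_neg h, l1_zero]
        · exact nm_mon_mul_le _ _
      · simp only [foxL]
        refine (l1_add_le _ _).trans (Nat.add_le_add ?_ ?_)
        · by_cases h : a = i
          · rw [if_pos h, if_pos h, l1_one]
          · rw [if_neg h, if_neg h, l1_zero]
        · exact nm_mon_mul_le _ _
    refine (Finset.sum_le_sum fun i _ => key i).trans ?_
    rw [Finset.sum_add_distrib, List.length_cons, add_comm]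
    refine Nat.add_le_add ih ?_
    simp

/-- **LenStmt.** -/
theorem len : LenStmt := fun _ u => sum_nm_foxL_le u.toWord

/-- The positive word as an element of the free group. -/
def ofw (w : List (Fin d)) : FreeGroup (Fin d) := (w.map FreeGroup.of).prod

theorem ofw_cons (a : Fin d) (w : List (Fin d)) : ofw (a :: w) = FreeGroup.of a * ofw w := by
  simp [ofw]

theorem ofw_append (u w : List (Fin d)) : ofw (u ++ w) = ofw u * ofw w := by
  simp [ofw]

theorem D_ofw (w : List (Fin d)) (i : Fin d) : D (ofw w) i = fox w i := by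
  induction w with
  | nil => simp [ofw, D_one, fox]
  | cons a w ih =>
    rw [ofw_cons, D_mul, D_of, ex_of, ih]
    rfl

theorem map_ofw (f : FreeGroup (Fin d) →* FreeGroup (Fin d)) (σ : Fin d → List (Fin d))
    (h : ∀ a, f (FreeGroup.of a) = ofw (σ a)) (w : List (Fin d)) :
    f (ofw w) = ofw (w.flatMap σ) := by
  induction w with
  | nil => simp [ofw]
  | cons a w ih => rw [ofw_cons, map_mul, ih, h, List.flatMap_cons, ofw_append]

theorem exists_equiv {m : ℕ} (a b : Fin (2 + m)) (hab : a ≠ b) :
    ∃ ρ : Fin 2 ⊕ Fin m ≃ Fin (2 + m), ρ (Sum.inl 0) = a ∧ ρ (Sum.inl 1) = b := by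
  classical
  set e : Fin 2 ⊕ Fin m ≃ Fin (2 + m) := finSumFinEquiv
  set p := e (Sum.inl 0)
  set q := e (Sum.inl 1)
  have hpq : p ≠ q := fun h => by simpa using e.injective h
  have hne : Equiv.swap p a q ≠ a := by
    intro h
    have h2 : Equiv.swap p a q = Equiv.swap p a p := by rw [h, Equiv.swap_apply_left]
    exact hpq ((Equiv.swap p a).injective h2).symm
  refine ⟨e.trans ((Equiv.swap p a).trans (Equiv.swap (Equiv.swap p a q) b)), ?_, ?_⟩
  · change Equiv.swap (Equiv.swap p a q) b (Equiv.swap p a p) = a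
    rw [Equiv.swap_apply_left, Equiv.swap_apply_of_ne_of_ne hne.symm hab]
  · change Equiv.swap (Equiv.swap p a q) b (Equiv.swap p a q) = b
    rw [Equiv.swap_apply_left]

/-- Minors of a matrix by complementary minors of the inverse. -/
theorem minor_le {m : ℕ} (A B : Matrix (Fin (2 + m)) (Fin (2 + m)) (Lau (2 + m)))
    (h : A * B = 1) (K : ℕ) (hK : ∀ x, ∑ k, nm (B x k) ≤ K) (a b i j : Fin (2 + m)) :
    nm (A a i * A b j - A a j * A b i) ≤ K ^ m := by
  classical
  by_cases hab : a = b
  · rw [hab, mul_comm (A b i), sub_self, l1_zero]; exact Nat.zero_le _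
  by_cases hij : i = j
  · rw [hij, sub_self, l1_zero]; exact Nat.zero_le _
  obtain ⟨ρ, hρ0, hρ1⟩ := exists_equiv a b hab
  obtain ⟨τ, hτ0, hτ1⟩ := exists_equiv i j hij
  have hAB : A.submatrix ρ τ * B.submatrix τ ρ = 1 := by
    rw [Matrix.submatrix_mul_equiv, h, Matrix.submatrix_one_equiv]
  have hdet := det_block_inv _ _ hAB
  have hu : (A.submatrix ρ τ).det * (B.submatrix τ ρ).det = 1 := by
    rw [← Matrix.det_mul, hAB, Matrix.det_one]
  have h11 : (A.submatrix ρ τ).toBlocks₁₁.det = A a i * A b j - A a j * A b i := by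
    rw [Matrix.det_fin_two]
    simp only [Matrix.toBlocks₁₁, Matrix.of_apply, Matrix.submatrix_apply, hρ0, hρ1, hτ0, hτ1]
  rw [← h11]
  have h2 : (A.submatrix ρ τ).toBlocks₁₁.det =
      (A.submatrix ρ τ).det * (B.submatrix τ ρ).toBlocks₂₂.det := by
    rw [← hdet]
    linear_combination -(A.submatrix ρ τ).toBlocks₁₁.det * hu
  rw [h2]
  refine (l1_mul_le _ _).trans ?_
  rw [l1_of_mul_eq_one hu, one_mul, ← Matrix.det_transpose]
  refine (l1_det_le _).trans ?_
  refine (Finset.prod_le_pow_card _ _ K fun x _ => ?_).trans (by simp)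
  refine le_trans ?_ (hK (τ (Sum.inr x)))
  have hinj : Function.Injective fun y : Fin m => ρ (Sum.inr y) :=
    fun y z hyz => Sum.inr_injective (ρ.injective hyz)
  have h3 : ∑ y : Fin m, nm ((B.submatrix τ ρ).toBlocks₂₂.transpose y x) =
      ∑ k ∈ (Finset.univ.map ⟨_, hinj⟩), nm (B (τ (Sum.inr x)) k) := by
    rw [Finset.sum_map]
    rfl
  rw [h3]
  exact Finset.sum_le_sum_of_subset (Finset.subset_univ _)

/-- **InvStmt.** -/
theorem inv : InvStmt := by
  intro d hd σ r hr ψ hψ hyp ε hε
  obtain ⟨m, rfl⟩ : ∃ m, d = 2 + m := ⟨d - 2, by omega⟩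
  obtain ⟨n, hn⟩ := hyp ε hε
  refine ⟨n, fun a b i j => ?_⟩
  let f : Monoid.End (FreeGroup (Fin (2 + m))) := ψ.toMonoidHom
  let g : Monoid.End (FreeGroup (Fin (2 + m))) := ψ.symm.toMonoidHom
  have hfg : (f ^ n) * (g ^ n) = 1 := by
    apply MonoidHom.ext
    intro x
    change (f ^ n) ((g ^ n) x) = x
    rw [Monoid.End.coe_pow, Monoid.End.coe_pow]
    exact Function.LeftInverse.iterate (fun y => ψ.apply_symm_apply y) n x
  have hf : ∀ a, (f : FreeGroup (Fin (2 + m)) →* FreeGroup (Fin (2 + m))) (FreeGroup.of a) =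
      ofw (σ a) := hψ
  have hfn : ∀ (n : ℕ) (w : List (Fin (2 + m))),
      (f : FreeGroup (Fin (2 + m)) → FreeGroup (Fin (2 + m)))^[n] (ofw w) =
        ofw (Pool.Agent.Helper94_Pisot.it σ n w) := by
    intro n
    induction n with
    | zero => intro w; rfl
    | succ n ih =>
      intro w
      have h1 : (f : FreeGroup (Fin (2 + m)) → FreeGroup (Fin (2 + m))) (ofw w) =
          ofw (w.flatMap σ) := map_ofw f σ hf w
      rw [Function.iterate_succ_apply]
      refine (congrArg ((f : FreeGroup (Fin (2 + m)) → FreeGroup (Fin (2 + m)))^[n]) h1).trans ?_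
      exact ih _
  have hchain := FMat_comp (f ^ n : Monoid.End (FreeGroup (Fin (2 + m))))
    (g ^ n : Monoid.End (FreeGroup (Fin (2 + m))))
  have hid : (FMat (MonoidHom.comp (f ^ n : Monoid.End (FreeGroup (Fin (2 + m))))
      (g ^ n : Monoid.End (FreeGroup (Fin (2 + m)))))) = 1 := by
    rw [← FMat_id]
    exact congrArg FMat hfg
  rw [hid] at hchain
  have hAB := mul_eq_one_comm.1 hchain.symm
  obtain ⟨x0, -, hx0⟩ := Finset.exists_max_image Finset.univ
    (fun x : Fin (2 + m) => flowNorm ((ψ.symm : FreeGroup (Fin (2 + m)) →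
      FreeGroup (Fin (2 + m)))^[n] (FreeGroup.of x))) ⟨a, Finset.mem_univ _⟩
  have key := minor_le _ _ hAB (flowNorm ((ψ.symm : FreeGroup (Fin (2 + m)) →
      FreeGroup (Fin (2 + m)))^[n] (FreeGroup.of x0))) (by
    intro x
    refine le_trans ?_ (hx0 x (Finset.mem_univ _))
    refine Finset.sum_le_sum fun k _ => ?_
    rw [Matrix.map_apply]
    refine (l1_mp_le _ _).trans ?_
    have : FMat (g ^ n : Monoid.End (FreeGroup (Fin (2 + m)))) x k =
        foxL ((ψ.symm : FreeGroup (Fin (2 + m)) →
          FreeGroup (Fin (2 + m)))^[n] (FreeGroup.of x)).toWord k := by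
      change D ((g ^ n : Monoid.End (FreeGroup (Fin (2 + m)))) (FreeGroup.of x)) k = _
      rw [Monoid.End.coe_pow]
      rfl
    rw [this]) a b i j
  have hF : ∀ x k, FMat (f ^ n : Monoid.End (FreeGroup (Fin (2 + m)))) x k =
      fox (Pool.Agent.Helper94_Pisot.it σ n [x]) k := by
    intro x k
    change D ((f ^ n : Monoid.End (FreeGroup (Fin (2 + m)))) (FreeGroup.of x)) k = _
    rw [Monoid.End.coe_pow, ← D_ofw, ← hfn]
    simp [ofw]
  rw [hF, hF, hF, hF] at key
  have h1 : (nm (minor (fun x => Pool.Agent.Helper94_Pisot.it σ n [x]) a b i j) : ℝ) ≤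
      ((flowNorm ((ψ.symm : FreeGroup (Fin (2 + m)) →
        FreeGroup (Fin (2 + m)))^[n] (FreeGroup.of x0)) : ℕ) : ℝ) ^ m := by
    exact_mod_cast key
  refine h1.trans ?_
  have h2 := hn x0
  rwa [show 2 + m - 2 = m by omega] at h2

end Pool.Agent.Helper38_Fox
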